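import Mathlib

/-!
# The FA-1f process on `ℤ`: definitions
-/

set_option autoImplicit false

namespace FAK

open MeasureTheory ProbabilityTheory

/-- Configurations on `ℤ`: `η x = true` means `η_x = 1` (healthy), `η x = false` means `η_x = 0`
(infected). The sigma-algebra is the product one. -/
abbrev Config : Type := ℤ → Bool

/-- The constraint `c_x(η) = 1{η_{x-1} + η_{x+1} ≠ 2}`. -/
noncomputable def cx (x : ℤ) (η : Config) : ℝ :=
  if η (x - 1) = true ∧ η (x + 1) = true then 0 else 1

/-- The flip rate `c_x(η) ((1 - η_x)(1 - q) + η_x q)`. -/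
noncomputable def rate (q : ℝ) (x : ℤ) (η : Config) : ℝ :=
  cx x η * (if η x = true then q else 1 - q)

/-- The configuration `η^x`, that is `η` flipped at `x`. -/
def flip (x : ℤ) (η : Config) : Config := Function.update η x (!(η x))

/-- Local functions: functions of finitely many coordinates. -/
def IsLocal (f : Config → ℝ) : Prop :=
  ∃ D : Finset ℤ, ∀ η ξ : Config, (∀ x ∈ D, η x = ξ x) → f η = f ξ

/-- The generator `L f (η) = ∑_x c_x(η) ((1 - η_x)(1 - q) + η_x q) (f(η^x) - f(η))`; for a local
function `f` only finitely many terms are nonzero. -/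
noncomputable def gen (q : ℝ) (f : Config → ℝ) (η : Config) : ℝ :=
  ∑' x : ℤ, rate q x η * (f (flip x η) - f η)

/-- `P` is the transition function of the FA-1f process: `P t η` is the law at time `t` of the
process started from `η`. It is a Markov semigroup on `Config` whose generator, on local
functions, is `gen q` (the convergence of the difference quotients being uniform). -/
structure IsFA1f (q : ℝ) (P : ℝ → Kernel Config Config) : Prop where
  /-- for `t ≥ 0`, `P t η` is a probability measure for every `η` -/
  markov : ∀ t : ℝ, 0 ≤ t → IsMarkovKernel (P t)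
  /-- at time `0` the process sits at its starting point -/
  zero : P 0 = Kernel.id
  /-- Markov property (Chapman-Kolmogorov equation) -/
  comp : ∀ s t : ℝ, 0 ≤ s → 0 ≤ t → P (s + t) = P t ∘ₖ P s
  /-- the generator on local functions -/
  gen : ∀ f : Config → ℝ, IsLocal f → ∀ ε : ℝ, 0 < ε → ∃ δ : ℝ, 0 < δ ∧
    ∀ t : ℝ, 0 < t → t < δ → ∀ η : Config,
      |((∫ ξ, f ξ ∂(P t η)) - f η) / t - gen q f η| ≤ ε

/-- The Bernoulli measure on `{0,1}` giving mass `q` to `0` (infected). -/
noncomputable def bern (q : ℝ) : Measure Bool :=
  ENNReal.ofReal q • Measure.dirac false + ENNReal.ofReal (1 - q) • Measure.dirac true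

/-- The product measure `π`: the sites are independent, each infected with probability `q`. -/
noncomputable def prodM (q : ℝ) : Measure Config := Measure.infinitePi (fun _ : ℤ => bern q)

end FAK
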