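import Pool.Agent.Helper769.FAH.HDefs
import Pool.Agent.Helper769.FAG.Main0

set_option autoImplicit false

open Finset Filter Topology

noncomputable section

namespace FAK

open MeasureTheory ProbabilityTheory FA.Inf

/-- the box dynamics as a Markov generator on configurations -/
def BoxG (q : ℝ) (h0 : 0 ≤ q) (h1 : q ≤ 1) (n : ℕ) : FA.MG Config where
  ι := ℤ
  I := Finset.Icc (-(n : ℤ)) n
  r := fun x η => FA.Inf.rate q x η
  T := fun x η => FA.Inf.flip η x
  N := ((Finset.Icc (-(n : ℤ)) n).card : ℝ) + 1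
  hN := by positivity
  hr := by
    intro x _ η
    unfold FA.Inf.rate FA.Inf.con
    split_ifs <;> simp <;> linarith
  hs := by
    intro η
    have h : ∀ x ∈ Finset.Icc (-(n : ℤ)) n, FA.Inf.rate q x η ≤ 1 := by
      intro x _
      unfold FA.Inf.rate FA.Inf.con
      split_ifs <;> simp <;> linarith
    calc _ ≤ ∑ x ∈ Finset.Icc (-(n : ℤ)) n, (1 : ℝ) := Finset.sum_le_sum h
      _ ≤ _ := by simp

end FAK
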