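import Pool.Agent.Helper769.FAH.HDefs
import Pool.Agent.Helper769.FAG.Main0
import Pool.Agent.Helper769.FAH.P_BoxG

set_option autoImplicit false
set_option linter.unusedSectionVars false

open Finset

noncomputable section

namespace FAK
open MeasureTheory ProbabilityTheory FA.Inf Filter Topology

theorem BoxG_P (q : ℝ) (h0 : 0 ≤ q) (h1 : q ≤ 1) (n : ℕ) (t : ℝ) (f : Config → ℝ) (η : Config) :
    Pbox q n t f η = (BoxG q h0 h1 n).P t f η ∧ Lbox q n f η = (BoxG q h0 h1 n).L f η := by
  exact ⟨rfl, rfl⟩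

end FAK
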