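import Pool.Agent.Helper769.FAH.HDefs
import Pool.Agent.Helper769.FAG.Main0

set_option autoImplicit false
set_option linter.unusedSectionVars false

open Finset

noncomputable section

namespace FAK
open MeasureTheory ProbabilityTheory FA.Inf Filter Topology

theorem Pbox_loc_Lbox (q : ℝ) (n : ℕ) (f : Config → ℝ) (hf : Loc (n + 1) f) :
    Loc (n + 1) (FA.Inf.Lbox q n f) := by
  intro η η' h
  unfold FA.Inf.Lbox
  refine Finset.sum_congr rfl fun x hx => ?_
  rw [Finset.mem_Icc] at hx
  have h1 : η x = η' x := h x (by push_cast; omega) (by push_cast; omega)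
  have h2 : η (x - 1) = η' (x - 1) := h _ (by push_cast; omega) (by push_cast; omega)
  have h3 : η (x + 1) = η' (x + 1) := h _ (by push_cast; omega) (by push_cast; omega)
  have hr : FA.Inf.rate q x η = FA.Inf.rate q x η' := by
    unfold FA.Inf.rate FA.Inf.con
    rw [h1, h2, h3]
  have h4 : f η = f η' := hf η η' h
  have h5 : f (FA.Inf.flip η x) = f (FA.Inf.flip η' x) := by
    refine hf _ _ fun y hy1 hy2 => ?_
    unfold FA.Inf.flip
    by_cases hyx : y = x
    · subst hyx
      simp [h1]
    · rw [Function.update_of_ne hyx, Function.update_of_ne hyx]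
      exact h y hy1 hy2
  rw [hr, h4, h5]

theorem Pbox_loc (q : ℝ) (n r : ℕ) (hr : r ≤ n + 1) (t : ℝ) (f : Config → ℝ) (hf : Loc r f) :
    Loc (n + 1) (Pbox q n t f) := by
  have hf' : Loc (n + 1) f := by
    intro η η' h
    refine hf η η' fun x hx1 hx2 => h x ?_ ?_ <;> push_cast <;> omega
  have hit : ∀ m : ℕ, Loc (n + 1) ((FA.Inf.Lbox q n)^[m] f) := by
    intro m
    induction m with
    | zero => exact hf'
    | succ m ih =>
      rw [Function.iterate_succ_apply']
      exact Pbox_loc_Lbox q n _ ih
  intro η η' h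
  unfold FA.Inf.Pbox
  refine tsum_congr fun m => ?_
  rw [hit m η η' h]

end FAK
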