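import Pool.Agent.Helper769.FAH.HDefs
import Pool.Agent.Helper769.FAG.Main0

set_option autoImplicit false
set_option linter.unusedSectionVars false

open Finset

noncomputable section

namespace FAK
open MeasureTheory ProbabilityTheory FA.Inf Filter Topology

/-- quantitative, uniform approximation -/
theorem Pinf_box (q : ℝ) (h0 : 0 ≤ q) (h1 : q ≤ 1) (r : ℕ) (f : Config → ℝ) (hf : Loc r f) (M : ℝ)
    (hM : ∀ η, |f η| ≤ M) (n : ℕ) (hn : r + 1 ≤ n) (t : ℝ) (ht : 0 ≤ t) (η : Config) :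
    |Pinf q t f η - Pbox q n t f η| ≤ 4 * M * t * Real.exp (6 * t - (n - r : ℝ)) := by
  have hrn : r ≤ n := by omega
  have h := Pinf_compare h0 h1 r f hf M hM (-(n : ℤ)) n (n - r) (by push_cast [Nat.cast_sub hrn]; omega)
    (by push_cast [Nat.cast_sub hrn]; omega) (kfr (-(n : ℤ)) n η) (adm0_fr _ _ (by omega) η) t ht η
  have e : (fun S => f (mix (-(n : ℤ)) n η S)) = toF r f := by
    funext S
    exact toF_mix r f hf n hrn η S
  rw [Pbox_eq h0 h1 n t f η, e]
  have e2 : (((n - r : ℕ) : ℝ)) = (n : ℝ) - r := by rw [Nat.cast_sub hrn]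
  rw [e2] at h
  exact h

end FAK
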