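import Pool.Agent.Helper769.FAH.HDefs
import Pool.Agent.Helper769.FAG.Main0

set_option autoImplicit false
set_option linter.unusedSectionVars false

open Finset

noncomputable section

namespace FAK
open MeasureTheory ProbabilityTheory FA.Inf Filter Topology

theorem rate_eq (q : ℝ) (x : ℤ) (η : Config) : rate q x η = FA.Inf.rate q x η := by
  unfold rate cx FA.Inf.rate FA.Inf.con
  congr 1
  cases h1 : η (x - 1) <;> cases h2 : η (x + 1) <;> simp

end FAK
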