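import Pool.Agent.Helper769.FAH.HDefs
import Pool.Agent.Helper769.FAG.Main0
import Pool.Agent.Helper769.FAH.P_rate_eq

set_option autoImplicit false
set_option linter.unusedSectionVars false

open Finset

noncomputable section

namespace FAK
open MeasureTheory ProbabilityTheory FA.Inf Filter Topology

theorem gen_eq (q : ℝ) (f : Config → ℝ) : gen q f = Lfull q f := by
  funext η
  unfold gen Lfull
  apply tsum_congr
  intro x
  rw [rate_eq]
  rfl

end FAK
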