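import Pool.Agent.Helper769.FAH.HDefs
import Pool.Agent.Helper769.FAG.Main0

set_option autoImplicit false
set_option linter.unusedSectionVars false

open Finset

noncomputable section

namespace FAK
open MeasureTheory ProbabilityTheory FA.Inf Filter Topology

theorem local_iff (f : Config → ℝ) : IsLocal f ↔ ∃ r : ℕ, Loc r f := by
  constructor
  · rintro ⟨D, hD⟩
    refine ⟨∑ x ∈ D, x.natAbs, fun η ξ h => hD η ξ fun x hx => ?_⟩
    have h1 : x.natAbs ≤ ∑ x ∈ D, x.natAbs :=
      Finset.single_le_sum (f := fun x : ℤ => x.natAbs) (fun _ _ => Nat.zero_le _) hx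
    exact h x (by omega) (by omega)
  · rintro ⟨r, hr⟩
    refine ⟨Finset.Icc (-(r : ℤ)) r, fun η ξ h => hr η ξ fun x h1 h2 => h x ?_⟩
    exact Finset.mem_Icc.2 ⟨h1, h2⟩

end FAK
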