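import Pool.Agent.Helper769.FAH.HDefs
import Pool.Agent.Helper769.FAG.Main0

set_option autoImplicit false
set_option linter.unusedSectionVars false

open Finset

noncomputable section

namespace FAK
open MeasureTheory ProbabilityTheory FA.Inf Filter Topology

theorem mg_taylor2_aux {X : Type} (G : FA.MG X) (H : X → ℝ) (hH : FA.Bd H) (K : ℝ)
    (hK : ∀ x, |G.L H x| ≤ K) (t : ℝ) (ht : 0 ≤ t) (x : X) :
    |G.P t H x - H x| ≤ K * t := by
  have h1 : ∀ s ∈ Set.Icc (0 : ℝ) t,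
      HasDerivWithinAt (fun s => G.P s H x) (G.P s (G.L H) x) (Set.Icc 0 t) s := by
    intro s _
    rw [G.P_comm H hH s x]
    exact (G.P_deriv H hH s x).hasDerivWithinAt
  have h2 : ∀ s ∈ Set.Ico (0 : ℝ) t, ‖G.P s (G.L H) x‖ ≤ K := by
    intro s hs
    rw [Real.norm_eq_abs]
    exact G.P_bound (G.L H) K hK s hs.1 x
  have h3 := norm_image_sub_le_of_norm_deriv_le_segment' h1 h2 t ⟨ht, le_refl t⟩
  simpa [G.P_zero, Real.norm_eq_abs] using h3

theorem mg_taylor2 {X : Type} (G : FA.MG X) (F : X → ℝ) (hF : FA.Bd F) (K : ℝ)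
    (hK : ∀ x, |G.L (G.L F) x| ≤ K) (t : ℝ) (ht : 0 ≤ t) (x : X) :
    |G.P t F x - F x - t * G.L F x| ≤ t ^ 2 * K := by
  have hK0 : 0 ≤ K := le_trans (abs_nonneg _) (hK x)
  have h1 : ∀ s ∈ Set.Icc (0 : ℝ) t,
      HasDerivWithinAt (fun s => G.P s F x - F x - s * G.L F x) (G.P s (G.L F) x - G.L F x)
        (Set.Icc 0 t) s := by
    intro s _
    rw [G.P_comm F hF s x]
    have ha := (G.P_deriv F hF s x).sub_const (F x)
    have hb := (hasDerivAt_id s).mul_const (G.L F x)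
    have hc := ha.sub hb
    simp only [one_mul] at hc
    exact hc.hasDerivWithinAt
  have h2 : ∀ s ∈ Set.Ico (0 : ℝ) t, ‖G.P s (G.L F) x - G.L F x‖ ≤ K * t := by
    intro s hs
    rw [Real.norm_eq_abs]
    refine (mg_taylor2_aux G (G.L F) (G.L_bd F hF) K hK s hs.1 x).trans ?_
    exact mul_le_mul_of_nonneg_left hs.2.le hK0
  have h3 := norm_image_sub_le_of_norm_deriv_le_segment' h1 h2 t ⟨ht, le_refl t⟩
  have h4 : |G.P t F x - F x - t * G.L F x| ≤ K * t * t := by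
    simpa [G.P_zero, Real.norm_eq_abs] using h3
  calc |G.P t F x - F x - t * G.L F x| ≤ K * t * t := h4
    _ = t ^ 2 * K := by ring

end FAK
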