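import Pool.Agent.Helper769.FAH.HDefs
import Pool.Agent.Helper769.FAG.Main0
import Pool.Agent.Helper769.FAH.P_BoxG
import Pool.Agent.Helper769.FAH.P_BoxG_P
import Pool.Agent.Helper769.FAH.P_mg_taylor2
import Pool.Agent.Helper769.FAH.P_gen_eq
import Pool.Agent.Helper769.FAH.P_rate_eq
import Pool.Agent.Helper769.FAH.P_local_iff

set_option autoImplicit false
set_option linter.unusedSectionVars false

open Finset

noncomputable section

namespace FAK
open MeasureTheory ProbabilityTheory FA.Inf Filter Topology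

theorem Pinf_gen_box (q : ℝ) (r : ℕ) (f : Config → ℝ) (hf : Loc r f) (n : ℕ) (hn : r ≤ n) :
    Lbox q n f = Lfull q f := by
  funext η
  unfold Lbox Lfull
  symm
  apply tsum_eq_sum
  intro x hx
  have hx' : ¬ (-(n : ℤ) ≤ x ∧ x ≤ n) := fun h => hx (Finset.mem_Icc.mpr h)
  have h : f (FA.Inf.flip η x) = f η := by
    apply hf
    intro y hy1 hy2
    unfold FA.Inf.flip
    apply Function.update_of_ne
    intro e
    apply hx'
    have hnr : (r : ℤ) ≤ n := by exact_mod_cast hn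
    subst e
    constructor <;> omega
  rw [h, sub_self, mul_zero]

theorem Pinf_gen (q : ℝ) (h0 : 0 ≤ q) (h1 : q ≤ 1) (f : Config → ℝ) (hf : IsLocal f) :
    ∃ K : ℝ, ∀ t : ℝ, 0 ≤ t → ∀ η : Config, |Pinf q t f η - f η - t * gen q f η| ≤ t ^ 2 * K := by
  obtain ⟨r, hr⟩ := (local_iff f).mp hf
  have hl1 : Loc (r + 1) (Lfull q f) := Lfull_loc r f hr
  have hl2 : Loc (r + 1 + 1) (Lfull q (Lfull q f)) := Lfull_loc (r + 1) _ hl1
  obtain ⟨K, hK⟩ := Loc_bd (r + 1 + 1) _ hl2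
  obtain ⟨M, hM⟩ := Loc_bd r f hr
  refine ⟨K, fun t ht η => ?_⟩
  rw [gen_eq]
  have hlim : Tendsto (fun n : ℕ => Pbox q n t f η) atTop (𝓝 (Pinf q t f η)) :=
    (Pinf_lim h0 h1 r f hr t ht).tendsto_at η
  have hlim2 : Tendsto (fun n : ℕ => |Pbox q n t f η - f η - t * Lfull q f η|) atTop
      (𝓝 |Pinf q t f η - f η - t * Lfull q f η|) :=
    ((hlim.sub_const _).sub_const _).abs
  refine le_of_tendsto hlim2 ?_
  filter_upwards [eventually_ge_atTop (r + 1)] with n hn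
  have hB1 : ∀ x, (BoxG q h0 h1 n).L f x = Lfull q f x := by
    intro x
    rw [← (BoxG_P q h0 h1 n t f x).2, Pinf_gen_box q r f hr n (by omega)]
  have hB1' : (BoxG q h0 h1 n).L f = Lfull q f := funext hB1
  have hB2 : ∀ x, (BoxG q h0 h1 n).L (Lfull q f) x = Lfull q (Lfull q f) x := by
    intro x
    rw [← (BoxG_P q h0 h1 n t (Lfull q f) x).2, Pinf_gen_box q (r + 1) _ hl1 n hn]
  have h3 := mg_taylor2 (BoxG q h0 h1 n) f ⟨M, hM⟩ K (fun x => by rw [hB1', hB2]; exact hK x) t ht η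
  rw [hB1, ← (BoxG_P q h0 h1 n t f η).1] at h3
  exact h3

end FAK
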