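import Pool.Agent.Helper769.FAH.HDefs
import Pool.Agent.Helper769.FAG.Main0

set_option autoImplicit false
set_option linter.unusedSectionVars false

open Finset

noncomputable section

namespace FAK
open MeasureTheory ProbabilityTheory FA.Inf Filter Topology

/-- the boundary sites hardly matter -/
theorem box_osc (q : ℝ) (h0 : 0 ≤ q) (h1 : q ≤ 1) (r : ℕ) (f : Config → ℝ) (hf : Loc r f) (M : ℝ)
    (hM : ∀ η, |f η| ≤ M) (n : ℕ) (hn : r + 2 ≤ n) (t : ℝ) (ht : 0 ≤ t) (η : Config) (x : ℤ)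
    (hx : x = n + 1 ∨ x = -(n : ℤ) - 1) :
    |Pbox q n t f (FA.Inf.flip η x) - Pbox q n t f η| ≤ 8 * M * t * Real.exp (6 * t - (n - r : ℝ)) := by
  have hab : -(n : ℤ) < n := by omega
  have hk' := adm0_fr (-(n : ℤ)) n hab (fun _ => true)
  have hc := fun ζ : Config => Pbox_compare (q := q) h0 h1 r f hf M hM n (-(n : ℤ)) n (n - r)
    le_rfl le_rfl (by omega) (by omega) (kfr (-(n : ℤ)) n (fun _ => true)) hk' t ht ζ
  have hS : SI (-(n : ℤ)) n (FA.Inf.flip η x) = SI (-(n : ℤ)) n η := by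
    unfold SI
    apply Finset.filter_congr
    intro y hy
    rw [Finset.mem_Icc] at hy
    have hyx : y ≠ x := by
      rintro rfl
      rcases hx with h | h <;> omega
    unfold FA.Inf.flip
    rw [Function.update_of_ne hyx]
  have h2 := hc η
  have h3 := hc (FA.Inf.flip η x)
  rw [hS] at h3
  have hcast : ((n - r : ℕ) : ℝ) = (n : ℝ) - r := by
    rw [Nat.cast_sub (by omega)]
  rw [hcast] at h2 h3
  rw [abs_le] at h2 h3 ⊢
  constructor <;> linarith [h2.1, h2.2, h3.1, h3.2]

end FAK
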