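import Pool.Agent.Helper769.FAH.HDefs
import Pool.Agent.Helper769.FAG.Main0
import Pool.Agent.Helper769.FAH.P_rate_eq
import Pool.Agent.Helper769.FAH.P_gen_eq
import Pool.Agent.Helper769.FAH.P_Pbox_loc
import Pool.Agent.Helper769.FAH.P_box_osc

set_option autoImplicit false
set_option linter.unusedSectionVars false

open Finset

noncomputable section

namespace FAK
open MeasureTheory ProbabilityTheory FA.Inf Filter Topology

theorem gen_box_rate (q : ℝ) (h0 : 0 ≤ q) (h1 : q ≤ 1) (x : ℤ) (η : Config) :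
    |FA.Inf.rate q x η| ≤ 1 := by
  unfold FA.Inf.rate FA.Inf.con
  split_ifs <;> simp only [one_mul, zero_mul, abs_zero] <;> first
    | (rw [abs_le]; constructor <;> linarith)
    | norm_num

theorem gen_box (q : ℝ) (h0 : 0 ≤ q) (h1 : q ≤ 1) (r : ℕ) (f : Config → ℝ) (hf : Loc r f) (M : ℝ)
    (hM : ∀ η, |f η| ≤ M) (n : ℕ) (hn : r + 2 ≤ n) (t : ℝ) (ht : 0 ≤ t) (η : Config) :
    |gen q (Pbox q n t f) η - Lbox q n (Pbox q n t f) η| ≤
      16 * M * t * Real.exp (6 * t - (n - r : ℝ)) := by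
  classical
  have hosc := box_osc q h0 h1 r f hf M hM n hn t ht η
  have hgl : Loc (n + 1) (Pbox q n t f) := Pbox_loc q n r (by omega) t f hf
  set g : Config → ℝ := Pbox q n t f with hg
  rw [gen_eq]
  have hL : Lfull q g η = ∑ x ∈ Finset.Icc (-(n : ℤ) - 1) ((n : ℤ) + 1),
      FA.Inf.rate q x η * (g (FA.Inf.flip η x) - g η) := by
    unfold Lfull
    refine tsum_eq_sum ?_
    intro x hx
    have hx' : g (FA.Inf.flip η x) = g η := by
      apply hgl
      intro y hy1 hy2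
      unfold FA.Inf.flip
      rw [Function.update_of_ne]
      rintro rfl
      apply hx
      rw [Finset.mem_Icc]
      push_cast at hy1 hy2
      constructor <;> linarith
    rw [hx', sub_self, mul_zero]
  have hsplit : Finset.Icc (-(n : ℤ) - 1) ((n : ℤ) + 1)
      = insert (-(n : ℤ) - 1) (insert ((n : ℤ) + 1) (Finset.Icc (-(n : ℤ)) n)) := by
    ext x
    simp only [Finset.mem_Icc, Finset.mem_insert]
    omega
  have hm1 : (n : ℤ) + 1 ∉ Finset.Icc (-(n : ℤ)) n := by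
    simp only [Finset.mem_Icc]; omega
  have hm2 : -(n : ℤ) - 1 ∉ insert ((n : ℤ) + 1) (Finset.Icc (-(n : ℤ)) n) := by
    simp only [Finset.mem_Icc, Finset.mem_insert]; omega
  rw [hL, hsplit, Finset.sum_insert hm2, Finset.sum_insert hm1]
  have hbox : Lbox q n g η = ∑ x ∈ Finset.Icc (-(n : ℤ)) n,
      FA.Inf.rate q x η * (g (FA.Inf.flip η x) - g η) := rfl
  rw [← hbox]
  set B : ℝ := 8 * M * t * Real.exp (6 * t - (n - r : ℝ)) with hB
  have b1 : |FA.Inf.rate q (-(n : ℤ) - 1) η * (g (FA.Inf.flip η (-(n : ℤ) - 1)) - g η)| ≤ B := by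
    rw [abs_mul]
    have e := hosc (-(n : ℤ) - 1) (Or.inr rfl)
    calc _ ≤ 1 * |g (FA.Inf.flip η (-(n : ℤ) - 1)) - g η| :=
          mul_le_mul_of_nonneg_right (gen_box_rate q h0 h1 _ _) (abs_nonneg _)
      _ ≤ B := by rw [one_mul]; exact e
  have b2 : |FA.Inf.rate q ((n : ℤ) + 1) η * (g (FA.Inf.flip η ((n : ℤ) + 1)) - g η)| ≤ B := by
    rw [abs_mul]
    have e := hosc ((n : ℤ) + 1) (Or.inl rfl)
    calc _ ≤ 1 * |g (FA.Inf.flip η ((n : ℤ) + 1)) - g η| :=
          mul_le_mul_of_nonneg_right (gen_box_rate q h0 h1 _ _) (abs_nonneg _)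
      _ ≤ B := by rw [one_mul]; exact e
  have e3 : 16 * M * t * Real.exp (6 * t - (n - r : ℝ)) = B + B := by rw [hB]; ring
  rw [e3]
  rw [show ∀ a b c : ℝ, a + (b + c) - c = a + b from fun a b c => by ring]
  exact (abs_add_le _ _).trans (add_le_add b1 b2)

end FAK
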