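import Pool.Agent.Helper769.FAH.HDefs
import Pool.Agent.Helper769.FAG.Main0

set_option autoImplicit false
set_option linter.unusedSectionVars false

open Finset

noncomputable section

namespace FAK
open MeasureTheory ProbabilityTheory FA.Inf Filter Topology

/-- extension of a configuration on a finite set by healthy sites -/
def loc_meas_ext (D : Finset ℤ) (g : D → Bool) : Config :=
  fun x => if h : x ∈ D then g ⟨x, h⟩ else true

theorem loc_meas_fac (r : ℕ) (f : Config → ℝ) (hf : Loc r f) :
    f = (fun g => f (loc_meas_ext (Finset.Icc (-(r : ℤ)) r) g)) ∘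
      (fun (η : Config) (x : (Finset.Icc (-(r : ℤ)) r : Finset ℤ)) => η x.1) := by
  funext η
  simp only [Function.comp_apply]
  apply hf
  intro x hx1 hx2
  have hx : x ∈ Finset.Icc (-(r : ℤ)) r := Finset.mem_Icc.2 ⟨hx1, hx2⟩
  simp only [loc_meas_ext, dif_pos hx]

theorem loc_meas (r : ℕ) (f : Config → ℝ) (hf : Loc r f) : Measurable f ∧ Continuous f := by
  rw [loc_meas_fac r f hf]
  constructor
  · refine Measurable.comp (measurable_of_finite _) ?_
    exact measurable_pi_lambda _ (fun i => measurable_pi_apply _)
  · refine Continuous.comp continuous_of_discreteTopology ?_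
    exact continuous_pi fun i => continuous_apply _

end FAK
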