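import Pool.Agent.Helper769.FAH.HDefs
import Pool.Agent.Helper769.FAG.Main0
import Pool.Agent.Helper769.FAH.P_loc_meas

set_option autoImplicit false
set_option linter.unusedSectionVars false

open Finset

noncomputable section

namespace FAK
open MeasureTheory ProbabilityTheory FA.Inf Filter Topology

theorem loc_int (r : ℕ) (f : Config → ℝ) (hf : Loc r f) (μ : Measure Config) [IsProbabilityMeasure μ] :
    Integrable f μ := by
  obtain ⟨M, hM⟩ := Loc_bd r f hf
  exact Integrable.of_bound (loc_meas r f hf).1.aestronglyMeasurable M
    (Filter.Eventually.of_forall fun x => by rw [Real.norm_eq_abs]; exact hM x)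

end FAK
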