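import Pool.Agent.Helper769.FAH.HDefs
import Pool.Agent.Helper769.FAG.Main0
import Pool.Agent.Helper769.FAH.P_mg_taylor2

set_option autoImplicit false
set_option linter.unusedSectionVars false

open Finset

noncomputable section

namespace FAK
open MeasureTheory ProbabilityTheory FA.Inf Filter Topology

/-- second order Taylor bound, uniform in the point -/
theorem mg_taylor {X : Type} (G : FA.MG X) (F : X → ℝ) (M : ℝ) (hM : ∀ x, |F x| ≤ M) (t : ℝ)
    (ht : 0 ≤ t) (x : X) : |G.P t F x - F x - t * G.L F x| ≤ t ^ 2 * (2 * G.N) ^ 2 * M := by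
  have hK : ∀ x, |G.L (G.L F) x| ≤ (2 * G.N) ^ 2 * M := by
    intro x
    exact FA.MG.iter_bound G F M hM 2 x
  have h := mg_taylor2 G F ⟨M, hM⟩ _ hK t ht x
  calc _ ≤ t ^ 2 * ((2 * G.N) ^ 2 * M) := h
    _ = _ := by ring

end FAK
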