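import Pool.Agent.Helper769.FAH.HDefs
import Pool.Agent.Helper769.FAG.Main0
import Pool.Agent.Helper769.FAH.P_loc_meas
import Pool.Agent.Helper769.FAH.P_loc_int
import Pool.Agent.Helper769.FAH.P_local_iff
import Pool.Agent.Helper769.FAH.P_gen_eq
import Pool.Agent.Helper769.FAH.P_rate_eq

set_option autoImplicit false
set_option linter.unusedSectionVars false

open Finset

noncomputable section

namespace FAK
open MeasureTheory ProbabilityTheory FA.Inf Filter Topology

/-- configuration with infected set `U` -/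
def unif_gen_c (U : Finset ℤ) : Config := fun x => if x ∈ U then false else true

/-- indicator of the infected set in the box being `U` -/
noncomputable def unif_gen_ind (R : ℕ) (U : Finset ℤ) (ξ : Config) : ℝ :=
  if SI (-(R : ℤ)) R ξ = U then 1 else 0

theorem unif_gen_SI (R : ℕ) (ξ ξ' : Config) (h : ∀ x : ℤ, -(R : ℤ) ≤ x → x ≤ R → ξ x = ξ' x) :
    SI (-(R : ℤ)) R ξ = SI (-(R : ℤ)) R ξ' := by
  unfold SI
  apply Finset.filter_congr
  intro x hx
  rw [Finset.mem_Icc] at hx
  rw [h x hx.1 hx.2]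

theorem unif_gen_ind_loc (R : ℕ) (U : Finset ℤ) : Loc R (unif_gen_ind R U) := by
  intro η η' h
  unfold unif_gen_ind
  rw [unif_gen_SI R η η' h]

theorem unif_gen_expand (R : ℕ) (g : Config → ℝ) (hg : Loc R g) (ξ : Config) :
    g ξ = ∑ U ∈ (Finset.Icc (-(R : ℤ)) R).powerset, g (unif_gen_c U) * unif_gen_ind R U ξ := by
  rw [Finset.sum_eq_single (SI (-(R : ℤ)) R ξ)]
  · rw [unif_gen_ind, if_pos rfl, mul_one]
    apply hg
    intro x h1 h2
    unfold unif_gen_c SI
    simp only [Finset.mem_filter, Finset.mem_Icc]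
    by_cases hx : ξ x = false
    · rw [if_pos ⟨⟨h1, h2⟩, hx⟩, hx]
    · rw [if_neg (fun h => hx h.2)]
      simpa using hx
  · intro U _ hU
    rw [unif_gen_ind, if_neg (fun h => hU h.symm), mul_zero]
  · intro h
    exfalso
    apply h
    rw [Finset.mem_powerset]
    exact Finset.filter_subset _ _

theorem unif_gen_sum (q : ℝ) (R : ℕ) (f : Config → ℝ) (hf : Loc R f) (η : Config) :
    gen q f η = ∑ x ∈ Finset.Icc (-(R : ℤ)) R, rate q x η * (f (flip x η) - f η) := by
  unfold gen
  apply tsum_eq_sum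
  intro x hx
  have : f (flip x η) = f η := by
    apply hf
    intro y h1 h2
    unfold flip
    rw [Function.update_of_ne]
    rintro rfl
    exact hx (Finset.mem_Icc.mpr ⟨h1, h2⟩)
  rw [this, sub_self, mul_zero]

theorem unif_gen_lin (q : ℝ) (R : ℕ) (g : Config → ℝ) (hg : Loc R g) (η : Config) :
    gen q g η = ∑ U ∈ (Finset.Icc (-(R : ℤ)) R).powerset,
      g (unif_gen_c U) * gen q (unif_gen_ind R U) η := by
  rw [unif_gen_sum q R g hg]
  have : ∀ U ∈ (Finset.Icc (-(R : ℤ)) R).powerset,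
      g (unif_gen_c U) * gen q (unif_gen_ind R U) η =
        ∑ x ∈ Finset.Icc (-(R : ℤ)) R, g (unif_gen_c U) *
          (rate q x η * (unif_gen_ind R U (flip x η) - unif_gen_ind R U η)) := by
    intro U _
    rw [unif_gen_sum q R _ (unif_gen_ind_loc R U), Finset.mul_sum]
  rw [Finset.sum_congr rfl this, Finset.sum_comm]
  apply Finset.sum_congr rfl
  intro x _
  rw [unif_gen_expand R g hg (flip x η), unif_gen_expand R g hg η, ← Finset.sum_sub_distrib,
    Finset.mul_sum]
  apply Finset.sum_congr rfl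
  intro U _
  ring

/-- the generator limit is uniform over bounded functions of the sites of a given box -/
theorem unif_gen (q : ℝ) (P : ℝ → Kernel Config Config) (hP : IsFA1f q P) (R : ℕ) (M : ℝ) (ε : ℝ)
    (hε : 0 < ε) : ∃ δ : ℝ, 0 < δ ∧ ∀ t : ℝ, 0 < t → t < δ → ∀ g : Config → ℝ, Loc R g →
      (∀ ξ, |g ξ| ≤ M) → ∀ η, |(∫ ξ, g ξ ∂(P t η)) - g η - t * gen q g η| ≤ t * ε := by
  classical
  set 𝒮 : Finset (Finset ℤ) := (Finset.Icc (-(R : ℤ)) R).powerset with h𝒮
  set K : ℝ := (𝒮.card : ℝ) with hK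
  have hK0 : 0 ≤ K := Nat.cast_nonneg _
  set ε' : ℝ := ε / ((|M| + 1) * (K + 1)) with hε'
  have hM1 : 0 < |M| + 1 := by have := abs_nonneg M; linarith
  have hε'0 : 0 < ε' := by positivity
  have hgen := fun U : Finset ℤ => hP.gen (unif_gen_ind R U)
    ((local_iff _).mpr ⟨R, unif_gen_ind_loc R U⟩) ε' hε'0
  choose δ hδ hδ' using hgen
  have hne : 𝒮.Nonempty := ⟨∅, Finset.empty_mem_powerset _⟩
  refine ⟨𝒮.inf' hne δ, (Finset.lt_inf'_iff _).mpr fun U _ => hδ U, ?_⟩
  intro t ht htδ g hg hgM η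
  haveI := hP.markov t ht.le
  have hone : ∀ U ∈ 𝒮, |(∫ ξ, unif_gen_ind R U ξ ∂(P t η)) - unif_gen_ind R U η -
      t * gen q (unif_gen_ind R U) η| ≤ t * ε' := by
    intro U hU
    have h1 := hδ' U t ht ((Finset.lt_inf'_iff _).mp htδ U hU) η
    have h2 : (∫ ξ, unif_gen_ind R U ξ ∂(P t η)) - unif_gen_ind R U η -
        t * gen q (unif_gen_ind R U) η =
        t * (((∫ ξ, unif_gen_ind R U ξ ∂(P t η)) - unif_gen_ind R U η) / t -
          gen q (unif_gen_ind R U) η) := by
      field_simp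
    rw [h2, abs_mul, abs_of_pos ht]
    exact mul_le_mul_of_nonneg_left h1 ht.le
  have hint : ∫ ξ, g ξ ∂(P t η) = ∑ U ∈ 𝒮, g (unif_gen_c U) * ∫ ξ, unif_gen_ind R U ξ ∂(P t η) := by
    have h1 : (fun ξ => g ξ) = fun ξ => ∑ U ∈ 𝒮, g (unif_gen_c U) * unif_gen_ind R U ξ := by
      funext ξ
      exact unif_gen_expand R g hg ξ
    rw [h1, integral_finset_sum]
    · apply Finset.sum_congr rfl
      intro U _
      rw [integral_const_mul]
    · intro U _
      exact (loc_int R _ (unif_gen_ind_loc R U) (P t η)).const_mul _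
  have hη := unif_gen_expand R g hg η
  have hG := unif_gen_lin q R g hg η
  rw [← h𝒮] at hη hG
  rw [hint, hG, hη]
  rw [Finset.mul_sum, ← Finset.sum_sub_distrib, ← Finset.sum_sub_distrib]
  calc |∑ U ∈ 𝒮, (g (unif_gen_c U) * ∫ ξ, unif_gen_ind R U ξ ∂(P t η) -
        g (unif_gen_c U) * unif_gen_ind R U η -
        t * (g (unif_gen_c U) * gen q (unif_gen_ind R U) η))|
      ≤ ∑ U ∈ 𝒮, |g (unif_gen_c U) * ∫ ξ, unif_gen_ind R U ξ ∂(P t η) -
        g (unif_gen_c U) * unif_gen_ind R U η -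
        t * (g (unif_gen_c U) * gen q (unif_gen_ind R U) η)| := Finset.abs_sum_le_sum_abs _ _
    _ ≤ ∑ U ∈ 𝒮, (|M| + 1) * (t * ε') := by
        apply Finset.sum_le_sum
        intro U hU
        have h1 : g (unif_gen_c U) * ∫ ξ, unif_gen_ind R U ξ ∂(P t η) -
            g (unif_gen_c U) * unif_gen_ind R U η -
            t * (g (unif_gen_c U) * gen q (unif_gen_ind R U) η) =
            g (unif_gen_c U) * ((∫ ξ, unif_gen_ind R U ξ ∂(P t η)) - unif_gen_ind R U η -
            t * gen q (unif_gen_ind R U) η) := by ring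
        rw [h1, abs_mul]
        apply mul_le_mul _ (hone U hU) (abs_nonneg _) hM1.le
        have := hgM (unif_gen_c U)
        have := le_abs_self M
        linarith
    _ = K * ((|M| + 1) * (t * ε')) := by rw [Finset.sum_const, nsmul_eq_mul]
    _ ≤ t * ε := by
        have h1 : (K + 1) * ((|M| + 1) * (t * ε')) = t * ε := by
          rw [hε']
          field_simp
        have h2 : 0 ≤ (|M| + 1) * (t * ε') := by positivity
        nlinarith

end FAK
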