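import Pool.Agent.Helper769.FAH.HDefs
import Pool.Agent.Helper769.FAG.Main0
import Pool.Agent.Helper769.FAH.P_BoxG
import Pool.Agent.Helper769.FAH.P_BoxG_P
import Pool.Agent.Helper769.FAH.P_mg_taylor
import Pool.Agent.Helper769.FAH.P_Pbox_loc
import Pool.Agent.Helper769.FAH.P_gen_box
import Pool.Agent.Helper769.FAH.P_unif_gen
import Pool.Agent.Helper769.FAH.P_loc_meas
import Pool.Agent.Helper769.FAH.P_loc_int
import Pool.Agent.Helper769.FAH.P_local_iff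

set_option autoImplicit false
set_option linter.unusedSectionVars false

open Finset

noncomputable section

namespace FAK
open MeasureTheory ProbabilityTheory FA.Inf Filter Topology

theorem box_cmp_bd (q : ℝ) (h0 : 0 ≤ q) (h1 : q ≤ 1) (f : Config → ℝ) (M : ℝ)
    (hM : ∀ η, |f η| ≤ M) (n : ℕ) (s : ℝ) (hs : 0 ≤ s) (ξ : Config) :
    |Pbox q n s f ξ| ≤ M := by
  rw [(BoxG_P q h0 h1 n s f ξ).1]
  exact (BoxG q h0 h1 n).P_bound f M hM s hs ξ

theorem box_cmp_tay (q : ℝ) (h0 : 0 ≤ q) (h1 : q ≤ 1) (f : Config → ℝ) (M : ℝ)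
    (hM : ∀ η, |f η| ≤ M) (n : ℕ) (s h : ℝ) (hs : 0 ≤ s) (hh : 0 ≤ h) (ξ : Config) :
    |Pbox q n (s + h) f ξ - Pbox q n s f ξ - h * Lbox q n (Pbox q n s f) ξ| ≤
      h ^ 2 * (2 * (BoxG q h0 h1 n).N) ^ 2 * M := by
  have e1 : Pbox q n s f = (BoxG q h0 h1 n).P s f := by
    funext ζ
    exact (BoxG_P q h0 h1 n s f ζ).1
  have e2 : Pbox q n (s + h) f ξ = (BoxG q h0 h1 n).P h (Pbox q n s f) ξ := by
    rw [(BoxG_P q h0 h1 n (s + h) f ξ).1, add_comm s h, e1]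
    exact (BoxG q h0 h1 n).P_semigroup f ⟨M, hM⟩ h s ξ
  have e3 : Lbox q n (Pbox q n s f) ξ = (BoxG q h0 h1 n).L (Pbox q n s f) ξ :=
    (BoxG_P q h0 h1 n s (Pbox q n s f) ξ).2
  rw [e2, e3]
  exact mg_taylor (BoxG q h0 h1 n) (Pbox q n s f) M
    (fun ζ => box_cmp_bd q h0 h1 f M hM n s hs ζ) h hh ξ

theorem box_cmp_step (q : ℝ) (h0 : 0 ≤ q) (h1 : q ≤ 1) (P : ℝ → Kernel Config Config)
    (hP : IsFA1f q P) (r : ℕ) (f : Config → ℝ) (hf : Loc r f) (M : ℝ) (hM : ∀ η, |f η| ≤ M)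
    (n : ℕ) (hn : r + 2 ≤ n) (t ε δ : ℝ)
    (hδ : ∀ s : ℝ, 0 < s → s < δ → ∀ g : Config → ℝ, Loc (n + 1) g →
      (∀ ξ, |g ξ| ≤ M) → ∀ η, |(∫ ξ, g ξ ∂(P s η)) - g η - s * gen q g η| ≤ s * ε)
    (h : ℝ) (hh0 : 0 < h) (hhδ : h < δ) (a s : ℝ) (ha : 0 ≤ a) (hs : 0 ≤ s) (hst : s ≤ t)
    (η : Config) :
    |(∫ ξ, Pbox q n s f ξ ∂(P (a + h) η)) - ∫ ξ, Pbox q n (s + h) f ξ ∂(P a η)| ≤
      h * (ε + 16 * M * t * Real.exp (6 * t - (n - r : ℝ)) +
        h * ((2 * (BoxG q h0 h1 n).N) ^ 2 * M)) := by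
  have hM0 : 0 ≤ M := (abs_nonneg _).trans (hM η)
  have ht0 : 0 ≤ t := hs.trans hst
  have hloc : ∀ s, Loc (n + 1) (Pbox q n s f) := fun s => Pbox_loc q n r (by omega) s f hf
  have hcomp := hP.comp a h ha hh0.le
  have m1 := hP.markov a ha
  have m2 := hP.markov h hh0.le
  have m3 := hP.markov (a + h) (by linarith)
  have hint : Integrable (Pbox q n s f) ((P h ∘ₖ P a) η) := by
    rw [← hcomp]
    exact loc_int (n + 1) _ (hloc s) _
  have e1 : ∫ ξ, Pbox q n s f ξ ∂(P (a + h) η) =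
      ∫ ξ, (∫ ζ, Pbox q n s f ζ ∂(P h ξ)) ∂(P a η) := by
    rw [hcomp]
    exact Kernel.integral_comp hint
  rw [e1, ← integral_sub hint.integral_comp (loc_int (n + 1) _ (hloc (s + h)) _)]
  have hb : ∀ ξ, ‖(∫ ζ, Pbox q n s f ζ ∂(P h ξ)) - Pbox q n (s + h) f ξ‖ ≤
      h * (ε + 16 * M * t * Real.exp (6 * t - (n - r : ℝ)) +
        h * ((2 * (BoxG q h0 h1 n).N) ^ 2 * M)) := by
    intro ξ
    have b1 := hδ h hh0 hhδ _ (hloc s) (fun ζ => box_cmp_bd q h0 h1 f M hM n s hs ζ) ξ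
    have b2 := gen_box q h0 h1 r f hf M hM n hn s hs ξ
    have b3 := box_cmp_tay q h0 h1 f M hM n s h hs hh0.le ξ
    have b4 : 16 * M * s * Real.exp (6 * s - (n - r : ℝ)) ≤
        16 * M * t * Real.exp (6 * t - (n - r : ℝ)) := by
      apply mul_le_mul _ _ (Real.exp_pos _).le (by positivity)
      · exact mul_le_mul_of_nonneg_left hst (by positivity)
      · apply Real.exp_le_exp.2
        linarith
    have b5 := mul_le_mul_of_nonneg_left (b2.trans b4) hh0.le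
    rw [← abs_of_pos hh0, ← abs_mul, abs_of_pos hh0] at b5
    rw [Real.norm_eq_abs]
    have e2 : (∫ ζ, Pbox q n s f ζ ∂(P h ξ)) - Pbox q n (s + h) f ξ =
        ((∫ ζ, Pbox q n s f ζ ∂(P h ξ)) - Pbox q n s f ξ - h * gen q (Pbox q n s f) ξ) +
        (h * (gen q (Pbox q n s f) ξ - Lbox q n (Pbox q n s f) ξ)) -
        (Pbox q n (s + h) f ξ - Pbox q n s f ξ - h * Lbox q n (Pbox q n s f) ξ) := by ring
    rw [e2]
    refine (abs_sub _ _).trans ?_
    have b6 := abs_add_le ((∫ ζ, Pbox q n s f ζ ∂(P h ξ)) - Pbox q n s f ξ -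
      h * gen q (Pbox q n s f) ξ) (h * (gen q (Pbox q n s f) ξ - Lbox q n (Pbox q n s f) ξ))
    have e3 : h * (ε + 16 * M * t * Real.exp (6 * t - (n - r : ℝ)) +
        h * ((2 * (BoxG q h0 h1 n).N) ^ 2 * M)) = h * ε +
        h * (16 * M * t * Real.exp (6 * t - (n - r : ℝ))) +
        h ^ 2 * (2 * (BoxG q h0 h1 n).N) ^ 2 * M := by ring
    rw [e3]
    linarith
  have hfin := norm_integral_le_of_norm_le_const (μ := P a η) (Filter.Eventually.of_forall hb)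
  rw [probReal_univ, mul_one, Real.norm_eq_abs] at hfin
  exact hfin

/-- any transition function of FA-1f is close to the box dynamics -/
theorem box_cmp (q : ℝ) (h0 : 0 ≤ q) (h1 : q ≤ 1) (P : ℝ → Kernel Config Config) (hP : IsFA1f q P)
    (r : ℕ) (f : Config → ℝ) (hf : Loc r f) (M : ℝ) (hM : ∀ η, |f η| ≤ M) (n : ℕ) (hn : r + 2 ≤ n)
    (t : ℝ) (ht : 0 ≤ t) (η : Config) :
    |(∫ ξ, f ξ ∂(P t η)) - Pbox q n t f η| ≤ t * (16 * M * t * Real.exp (6 * t - (n - r : ℝ))) := by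
  have hM0 : 0 ≤ M := (abs_nonneg _).trans (hM η)
  have hP0 : ∀ ξ, Pbox q n 0 f ξ = f ξ := by
    intro ξ
    rw [(BoxG_P q h0 h1 n 0 f ξ).1]
    exact (BoxG q h0 h1 n).P_zero f ξ
  have hid : ∀ g : Config → ℝ, ∫ ξ, g ξ ∂(P 0 η) = g η := by
    intro g
    rw [hP.zero, Kernel.id_apply, integral_dirac]
  rcases ht.eq_or_lt with h | htp
  · rw [← h, hid, hP0, sub_self, abs_zero, zero_mul]
  apply le_of_forall_pos_le_add
  intro ε hε
  obtain ⟨K, hK⟩ : ∃ K, K = (2 * (BoxG q h0 h1 n).N) ^ 2 * M := ⟨_, rfl⟩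
  have hK0 : 0 ≤ K := by rw [hK]; positivity
  obtain ⟨δ, hδ0, hδ⟩ := unif_gen q P hP (n + 1) M (ε / (2 * t)) (by positivity)
  obtain ⟨N, hN⟩ := exists_nat_gt (max (t / δ) (2 * t ^ 2 * K / ε))
  have hN1 : t / δ < N := (le_max_left _ _).trans_lt hN
  have hN2 : 2 * t ^ 2 * K / ε < N := (le_max_right _ _).trans_lt hN
  have hNr : (0 : ℝ) < N := lt_trans (by positivity) hN1
  have hh0 : 0 < t / N := by positivity
  have hhδ : t / N < δ := by
    rw [div_lt_iff₀ hNr]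
    rw [div_lt_iff₀ hδ0] at hN1
    linarith
  obtain ⟨c, hc⟩ : ∃ c, c = t / N * (ε / (2 * t) + 16 * M * t * Real.exp (6 * t - (n - r : ℝ)) +
        t / N * ((2 * (BoxG q h0 h1 n).N) ^ 2 * M)) := ⟨_, rfl⟩
  have key : ∀ i : ℕ, i ≤ N → |(∫ ξ, Pbox q n (t - i * (t / N)) f ξ ∂(P (i * (t / N)) η)) -
      Pbox q n t f η| ≤ i * c := by
    intro i
    induction i with
    | zero =>
      intro _
      rw [Nat.cast_zero, zero_mul, sub_zero, hid, sub_self, abs_zero, zero_mul]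
    | succ i ih =>
      intro hi
      have ih' := ih (by omega)
      have hiN : ((i : ℝ) + 1) * (t / N) ≤ t := by
        have h3 : ((i : ℝ) + 1) ≤ N := by exact_mod_cast hi
        calc ((i : ℝ) + 1) * (t / N) ≤ N * (t / N) := mul_le_mul_of_nonneg_right h3 hh0.le
          _ = t := by field_simp
      have hst := box_cmp_step q h0 h1 P hP r f hf M hM n hn t _ δ hδ (t / N) hh0 hhδ
        (i * (t / N)) (t - ((i : ℝ) + 1) * (t / N)) (by positivity) (by linarith)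
        (by
          have h4 : 0 ≤ ((i : ℝ) + 1) * (t / N) := by positivity
          linarith) η
      have e1 : (i : ℝ) * (t / N) + t / N = ((i : ℝ) + 1) * (t / N) := by ring
      have e2 : t - ((i : ℝ) + 1) * (t / N) + t / N = t - i * (t / N) := by ring
      rw [e1, e2, ← hc] at hst
      have e3 : ((i + 1 : ℕ) : ℝ) = (i : ℝ) + 1 := by push_cast; ring
      rw [e3]
      have h5 := abs_sub_le (∫ ξ, Pbox q n (t - ((i : ℝ) + 1) * (t / N)) f ξ
        ∂(P (((i : ℝ) + 1) * (t / N)) η))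
        (∫ ξ, Pbox q n (t - i * (t / N)) f ξ ∂(P (i * (t / N)) η)) (Pbox q n t f η)
      have e4 : ((i : ℝ) + 1) * c = c + i * c := by ring
      rw [e4]
      linarith
  have hk := key N le_rfl
  have e5 : (N : ℝ) * (t / N) = t := by field_simp
  rw [e5, sub_self] at hk
  have e6 : ∫ ξ, Pbox q n 0 f ξ ∂(P t η) = ∫ ξ, f ξ ∂(P t η) :=
    integral_congr_ae (Filter.Eventually.of_forall hP0)
  rw [e6] at hk
  refine hk.trans ?_
  have e7 : (N : ℝ) * c = t * (16 * M * t * Real.exp (6 * t - (n - r : ℝ))) +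
      (ε / 2 + t ^ 2 * K / N) := by
    rw [hc, ← hK]
    field_simp
    ring
  rw [e7]
  have h8 : t ^ 2 * K / N ≤ ε / 2 := by
    rw [div_le_iff₀ hNr]
    rw [div_lt_iff₀ hε] at hN2
    linarith
  linarith

end FAK
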