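import Pool.Agent.Helper769.FAH.HDefs
import Pool.Agent.Helper769.FAG.Main0
import Pool.Agent.Helper769.FAH.P_BoxG
import Pool.Agent.Helper769.FAH.P_BoxG_P

set_option autoImplicit false
set_option linter.unusedSectionVars false

open Finset

noncomputable section

namespace FAK
open MeasureTheory ProbabilityTheory FA.Inf Filter Topology

theorem box_law_fin (η : Config) (n : ℕ) :
    {ξ : Config | ∀ x : ℤ, x ∉ Finset.Icc (-(n : ℤ)) n → ξ x = η x}.Finite := by
  classical
  apply Set.Finite.subset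
    (((Finset.Icc (-(n : ℤ)) n).powerset.image (fun S => FA.Inf.mix (-(n : ℤ)) n η S)).finite_toSet)
  intro ξ hξ
  have hξ' : ∀ x : ℤ, x ∉ Finset.Icc (-(n : ℤ)) n → ξ x = η x := hξ
  rw [Finset.mem_coe, Finset.mem_image]
  refine ⟨(Finset.Icc (-(n : ℤ)) n).filter (fun x => ξ x = false),
    Finset.mem_powerset.2 (Finset.filter_subset _ _), ?_⟩
  funext x
  unfold FA.Inf.mix
  by_cases hx : x ∈ Finset.Icc (-(n : ℤ)) n
  · rw [if_pos hx]
    cases h : ξ x
    · have hm : x ∈ (Finset.Icc (-(n : ℤ)) n).filter (fun x => ξ x = false) :=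
        Finset.mem_filter.2 ⟨hx, h⟩
      rw [decide_eq_true hm]; rfl
    · have hm : x ∉ (Finset.Icc (-(n : ℤ)) n).filter (fun x => ξ x = false) := by
        intro hm
        have := (Finset.mem_filter.1 hm).2
        rw [h] at this
        exact absurd this (by decide)
      rw [decide_eq_false hm]; rfl
  · rw [if_neg hx, hξ' x hx]

theorem box_law_sum {X : Type} [DecidableEq X] (G : FA.MG X) (t : ℝ) (η : X) (a : X → ℝ)
    (s : Finset X) :
    G.P t (fun ξ => ∑ c ∈ s, a c * (if ξ = c then (1:ℝ) else 0)) η =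
      ∑ c ∈ s, a c * G.P t (fun ξ => if ξ = c then (1:ℝ) else 0) η := by
  have hind : ∀ c : X, FA.Bd (fun ξ : X => if ξ = c then (1:ℝ) else 0) := fun c =>
    ⟨1, fun ξ => by dsimp only; split_ifs <;> simp⟩
  have hbd1 : ∀ c : X, FA.Bd (fun ξ : X => a c * (if ξ = c then (1:ℝ) else 0)) := fun c =>
    ⟨|a c|, fun ξ => by dsimp only; split_ifs <;> simp⟩
  have hbd : ∀ s : Finset X, FA.Bd (fun ξ : X => ∑ c ∈ s, a c * (if ξ = c then (1:ℝ) else 0)) := by
    intro s
    refine ⟨∑ c ∈ s, |a c|, fun ξ => ?_⟩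
    refine (Finset.abs_sum_le_sum_abs _ _).trans (Finset.sum_le_sum fun c _ => ?_)
    split_ifs <;> simp
  induction s using Finset.induction_on with
  | empty =>
    simp only [Finset.sum_empty]
    exact G.P_const 0 t η
  | insert c s hc ih =>
    rw [Finset.sum_insert hc, ← ih, ← G.P_smul (a c) _ (hind c) t η,
      ← G.P_add _ _ (hbd1 c) (hbd s) t η]
    congr 1
    funext ξ
    rw [Finset.sum_insert hc]

/-- the law of the box dynamics started from `η` -/
theorem box_law (q : ℝ) (h0 : 0 ≤ q) (h1 : q ≤ 1) (n : ℕ) (t : ℝ) (ht : 0 ≤ t) (η : Config) :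
    ∃ μ : ProbabilityMeasure Config, ∀ f : Config → ℝ, Measurable f → (∃ M : ℝ, ∀ ξ, |f ξ| ≤ M) →
      ∫ ξ, f ξ ∂(μ : Measure Config) = Pbox q n t f η := by
  classical
  set G := BoxG q h0 h1 n with hG
  set C : Set Config := {ξ : Config | ∀ x : ℤ, x ∉ Finset.Icc (-(n : ℤ)) n → ξ x = η x} with hC
  have hCf : C.Finite := box_law_fin η n
  set Cf : Finset Config := hCf.toFinset with hCfd
  have hmem : ∀ ξ, ξ ∈ Cf ↔ ξ ∈ C := fun ξ => hCf.mem_toFinset
  have hηC : η ∈ C := fun x _ => rfl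
  have hclosed : ∀ i ∈ G.I, ∀ x ∈ C, G.r i x ≠ 0 → G.T i x ∈ C := by
    intro i hi x hx _ y hy
    have hiI : i ∈ Finset.Icc (-(n : ℤ)) n := hi
    have hne : y ≠ i := by
      rintro rfl
      exact hy hiI
    show FA.Inf.flip x i y = η y
    unfold FA.Inf.flip
    rw [Function.update_of_ne hne]
    exact hx y hy
  set w : Config → ℝ := fun c => G.P t (fun ξ => if ξ = c then (1:ℝ) else 0) η with hw
  have hw0 : ∀ c, 0 ≤ w c := fun c =>
    G.P_nonneg _ ⟨1, fun ξ => by split_ifs <;> simp⟩ (fun ξ => by split_ifs <;> norm_num) t ht η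
  have hrep : ∀ f : Config → ℝ, G.P t f η = ∑ c ∈ Cf, f c * w c := by
    intro f
    rw [← box_law_sum G t η f Cf]
    refine G.P_congr_on C hclosed _ _ ?_ t η hηC
    intro ξ hξ
    rw [Finset.sum_eq_single ξ]
    · rw [if_pos rfl, mul_one]
    · intro c _ hc
      rw [if_neg (Ne.symm hc), mul_zero]
    · intro hn
      exact absurd ((hmem ξ).2 hξ) hn
  have hsum1 : ∑ c ∈ Cf, w c = 1 := by
    have h2 := hrep (fun _ => 1)
    rw [G.P_const 1 t η] at h2
    simpa using h2.symm
  set μ0 : Measure Config := ∑ c ∈ Cf, ENNReal.ofReal (w c) • Measure.dirac c with hμ0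
  have hprob : IsProbabilityMeasure μ0 := by
    constructor
    rw [hμ0, Measure.finsetSum_apply]
    simp only [Measure.smul_apply, measure_univ, smul_eq_mul, mul_one]
    rw [← ENNReal.ofReal_sum_of_nonneg (fun c _ => hw0 c), hsum1, ENNReal.ofReal_one]
  refine ⟨⟨μ0, hprob⟩, fun f hf hM => ?_⟩
  show ∫ ξ, f ξ ∂μ0 = _
  rw [(BoxG_P q h0 h1 n t f η).1, ← hG, hrep f, hμ0, integral_finsetSum_measure]
  · apply Finset.sum_congr rfl
    intro c _
    rw [integral_smul_measure, integral_dirac, ENNReal.toReal_ofReal (hw0 c), smul_eq_mul, mul_comm]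
  · intro c _
    apply Integrable.smul_measure _ ENNReal.ofReal_ne_top
    obtain ⟨M, hM⟩ := hM
    exact Integrable.of_bound hf.aestronglyMeasurable M
      (Filter.Eventually.of_forall fun ξ => by rw [Real.norm_eq_abs]; exact hM ξ)

end FAK
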