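import Pool.Agent.Helper769.FAH.HDefs
import Pool.Agent.Helper769.FAG.Main0
import Pool.Agent.Helper769.FAH.P_loc_meas
import Pool.Agent.Helper769.FAH.P_loc_int
import Pool.Agent.Helper769.FAH.P_local_iff

set_option autoImplicit false
set_option linter.unusedSectionVars false

open Finset

noncomputable section

namespace FAK
open MeasureTheory ProbabilityTheory FA.Inf Filter Topology

/-- a probability measure is determined by the integrals of local functions -/
theorem ext_local (μ ν : Measure Config) [IsProbabilityMeasure μ] [IsProbabilityMeasure ν]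
    (h : ∀ f : Config → ℝ, IsLocal f → ∫ ξ, f ξ ∂μ = ∫ ξ, f ξ ∂ν) : μ = ν := by
  classical
  refine MeasureTheory.ext_of_generate_finite (measurableCylinders (fun _ : ℤ => Bool))
    generateFrom_measurableCylinders.symm isPiSystem_measurableCylinders ?_ (by simp)
  intro A hA
  obtain ⟨D, S, hS, rfl⟩ := (mem_measurableCylinders A).1 hA
  have hm : MeasurableSet (cylinder D S) := MeasurableSet.cylinder (α := fun _ : ℤ => Bool) D hS
  have hloc : IsLocal ((cylinder D S).indicator (1 : Config → ℝ)) := by
    refine ⟨D, fun η ξ hηξ => ?_⟩
    have h1 : η ∈ cylinder D S ↔ ξ ∈ cylinder D S := by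
      rw [mem_cylinder, mem_cylinder]
      have h2 : D.restrict η = D.restrict ξ := by
        funext x
        exact hηξ x.1 x.2
      rw [h2]
    by_cases hη : η ∈ cylinder D S
    · rw [Set.indicator_of_mem hη, Set.indicator_of_mem (h1.1 hη)]
      rfl
    · rw [Set.indicator_of_notMem hη, Set.indicator_of_notMem (fun hξ => hη (h1.2 hξ))]
  have h3 := h _ hloc
  rw [integral_indicator_one hm, integral_indicator_one hm] at h3
  exact (ENNReal.toReal_eq_toReal_iff' (measure_ne_top _ _) (measure_ne_top _ _)).1 h3

end FAK
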