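import Pool.Agent.Helper769.FAH.HDefs
import Pool.Agent.Helper769.FAG.Main0
import Pool.Agent.Helper769.FAH.P_box_law
import Pool.Agent.Helper769.FAH.P_loc_meas
import Pool.Agent.Helper769.FAH.P_loc_int
import Pool.Agent.Helper769.FAH.P_local_iff

set_option autoImplicit false
set_option linter.unusedSectionVars false

open Finset

noncomputable section

namespace FAK
open MeasureTheory ProbabilityTheory FA.Inf Filter Topology

theorem exists_law (q : ℝ) (h0 : 0 ≤ q) (h1 : q ≤ 1) (t : ℝ) (ht : 0 ≤ t) (η : Config) :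
    ∃ μ : ProbabilityMeasure Config, ∀ f : Config → ℝ, IsLocal f →
      ∫ ξ, f ξ ∂(μ : Measure Config) = Pinf q t f η := by
  choose μ hμ using fun n : ℕ => box_law q h0 h1 n t ht η
  have hU : ((Filter.hyperfilter ℕ : Ultrafilter ℕ) : Filter ℕ) ≤ atTop :=
    _root_.Nat.hyperfilter_le_atTop
  obtain ⟨ν, -, hν⟩ := (isCompact_univ (X := ProbabilityMeasure Config)).ultrafilter_le_nhds
    ((Filter.hyperfilter ℕ).map μ) (by simp)
  refine ⟨ν, fun f hf => ?_⟩
  obtain ⟨r, hr⟩ := (local_iff f).1 hf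
  obtain ⟨hm, hc⟩ := loc_meas r f hr
  obtain ⟨M, hM⟩ := FA.Inf.Loc_bd r f hr
  obtain ⟨g, hg⟩ : ∃ g : BoundedContinuousFunction Config ℝ, ∀ x, g x = f x :=
    ⟨BoundedContinuousFunction.ofNormedAddCommGroup f hc M (fun x => by
      rw [Real.norm_eq_abs]; exact hM x), fun x => rfl⟩
  have hν' : Tendsto μ ((Filter.hyperfilter ℕ : Ultrafilter ℕ) : Filter ℕ) (𝓝 ν) := hν
  have h1' := (ProbabilityMeasure.tendsto_iff_forall_integral_tendsto.1 hν') g
  have h2' : Tendsto (fun n : ℕ => Pbox q n t f η)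
      ((Filter.hyperfilter ℕ : Ultrafilter ℕ) : Filter ℕ) (𝓝 (Pinf q t f η)) :=
    ((FA.Inf.Pinf_lim h0 h1 r f hr t ht).tendsto_at η).mono_left hU
  simp only [hg] at h1'
  have e : (fun n : ℕ => ∫ ξ, f ξ ∂(μ n : Measure Config)) = fun n : ℕ => Pbox q n t f η :=
    funext fun n => hμ n f hm ⟨M, hM⟩
  rw [e] at h1'
  exact tendsto_nhds_unique h1' h2'

end FAK
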