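import Pool.Agent.Helper769.FAH.HDefs
import Pool.Agent.Helper769.FAG.Main0
import Pool.Agent.Helper769.FAH.P_loc_meas
import Pool.Agent.Helper769.FAH.P_loc_int
import Pool.Agent.Helper769.FAH.P_local_iff

set_option autoImplicit false
set_option linter.unusedSectionVars false

open Finset

noncomputable section

namespace FAK
open MeasureTheory ProbabilityTheory FA.Inf Filter Topology

theorem meas_kernel (m : Config → ProbabilityMeasure Config)
    (h : ∀ f : Config → ℝ, IsLocal f → Measurable (fun η => ∫ ξ, f ξ ∂(m η : Measure Config))) :
    Measurable (fun η => (m η : Measure Config)) := by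
  classical
  apply Measurable.measure_of_isPiSystem_of_isProbabilityMeasure
    (S := measurableCylinders (fun _ : ℤ => Bool))
  · exact generateFrom_measurableCylinders.symm
  · exact isPiSystem_measurableCylinders
  · intro A hA
    have hAm : MeasurableSet A := MeasurableSet.of_mem_measurableCylinders hA
    rw [mem_measurableCylinders] at hA
    obtain ⟨s, S, hS, rfl⟩ := hA
    have hloc : IsLocal ((cylinder s S).indicator (fun _ => (1 : ℝ))) := by
      refine ⟨s, fun η ξ hηξ => ?_⟩
      have h1 : s.restrict η = s.restrict ξ := by
        funext x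
        exact hηξ x.1 x.2
      have h2 : η ∈ cylinder s S ↔ ξ ∈ cylinder s S := by
        rw [mem_cylinder, mem_cylinder, h1]
      by_cases h3 : η ∈ cylinder s S
      · rw [Set.indicator_of_mem h3, Set.indicator_of_mem (h2.1 h3)]
      · rw [Set.indicator_of_notMem h3, Set.indicator_of_notMem (fun h4 => h3 (h2.2 h4))]
    have h4 := (h _ hloc).ennreal_ofReal
    have h5 : (fun η => (m η : Measure Config) (cylinder s S)) = fun η =>
        ENNReal.ofReal (∫ ξ, (cylinder s S).indicator (fun _ => (1 : ℝ)) ξ ∂(m η : Measure Config)) := by
      funext η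
      rw [integral_indicator hAm]
      simp
    rw [h5]
    exact h4

end FAK
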