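import Pool.Agent.Helper769.FAH.HDefs
import Pool.Agent.Helper769.FAG.Main0
import Pool.Agent.Helper769.FAH.P_exists_law
import Pool.Agent.Helper769.FAH.P_meas_kernel
import Pool.Agent.Helper769.FAH.P_local_iff

set_option autoImplicit false
set_option linter.unusedSectionVars false

open Finset

noncomputable section

namespace FAK
open MeasureTheory ProbabilityTheory FA.Inf Filter Topology

theorem kernels (q : ℝ) (h0 : 0 ≤ q) (h1 : q ≤ 1) :
    ∃ P : ℝ → Kernel Config Config, (∀ t : ℝ, 0 ≤ t → IsMarkovKernel (P t)) ∧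
      ∀ t : ℝ, 0 ≤ t → ∀ f : Config → ℝ, IsLocal f → ∀ η, ∫ ξ, f ξ ∂(P t η) = Pinf q t f η := by
  classical
  choose m hm using fun (t : ℝ) (ht : 0 ≤ t) (η : Config) => exists_law q h0 h1 t ht η
  have hmeas : ∀ (t : ℝ) (ht : 0 ≤ t), Measurable (fun η => (m t ht η : Measure Config)) := by
    intro t ht
    apply meas_kernel
    intro f hf
    have e : (fun η => ∫ ξ, f ξ ∂(m t ht η : Measure Config)) = Pinf q t f := by
      funext η
      exact hm t ht η f hf
    rw [e]
    obtain ⟨r, hr⟩ := (local_iff f).mp hf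
    exact (Pinf_meas h0 h1 r f hr t ht).1
  let P : ℝ → Kernel Config Config := fun t =>
    if ht : 0 ≤ t then ⟨fun η => (m t ht η : Measure Config), hmeas t ht⟩ else Kernel.id
  have hP : ∀ (t : ℝ) (ht : 0 ≤ t) (η : Config), P t η = (m t ht η : Measure Config) := by
    intro t ht η
    show (if ht : 0 ≤ t then (⟨fun η => (m t ht η : Measure Config), hmeas t ht⟩ :
      Kernel Config Config) else Kernel.id) η = _
    rw [dif_pos ht]
    rfl
  refine ⟨P, ?_, ?_⟩
  · intro t ht
    refine ⟨fun η => ?_⟩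
    rw [hP t ht η]
    infer_instance
  · intro t ht f hf η
    rw [hP t ht η]
    exact hm t ht η f hf

end FAK
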