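import Pool.Agent.Helper769.FAH.HDefs
import Pool.Agent.Helper769.FAG.Main0
import Pool.Agent.Helper769.FAH.P_Pinf_box
import Pool.Agent.Helper769.FAH.P_BoxG
import Pool.Agent.Helper769.FAH.P_BoxG_P
import Pool.Agent.Helper769.FAH.P_Pbox_loc
import Pool.Agent.Helper769.FAH.P_loc_meas
import Pool.Agent.Helper769.FAH.P_loc_int
import Pool.Agent.Helper769.FAH.P_local_iff

set_option autoImplicit false
set_option linter.unusedSectionVars false

open Finset

noncomputable section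

namespace FAK
open MeasureTheory ProbabilityTheory FA.Inf Filter Topology

theorem semigroup_sub (q : ℝ) (h0 : 0 ≤ q) (h1 : q ≤ 1) (m : ℕ) (s : ℝ) (hs : 0 ≤ s)
    (F H : Config → ℝ) (hF : FA.Bd F) (hH : FA.Bd H) (e : ℝ) (he : ∀ ξ, |F ξ - H ξ| ≤ e) (η : Config) :
    |Pbox q m s F η - Pbox q m s H η| ≤ e := by
  rw [(BoxG_P q h0 h1 m s F η).1, (BoxG_P q h0 h1 m s H η).1]
  have h := (BoxG q h0 h1 m).P_bound (fun ξ => F ξ - H ξ) e he s hs η
  have hH' : FA.Bd (fun y => (-1) * H y) := by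
    obtain ⟨K, hK⟩ := hH
    exact ⟨K, fun x => by rw [abs_mul]; simpa using hK x⟩
  have h2 : (BoxG q h0 h1 m).P s (fun ξ => F ξ - H ξ) η =
      (BoxG q h0 h1 m).P s F η - (BoxG q h0 h1 m).P s H η := by
    have h3 := (BoxG q h0 h1 m).P_add F (fun y => (-1) * H y) hF hH' s η
    have h4 := (BoxG q h0 h1 m).P_smul (-1) H hH s η
    have h5 : (fun ξ => F ξ - H ξ) = (fun y => F y + (-1) * H y) := by funext y; ring
    rw [h5, h3, h4]; ring
  rw [← h2]; exact h

theorem semigroup_tend (M t : ℝ) (r : ℕ) :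
    Tendsto (fun n : ℕ => 4 * M * t * Real.exp (6 * t - ((n : ℝ) - r))) atTop (𝓝 0) := by
  have h1 : Tendsto (fun n : ℕ => Real.exp (6 * t - ((n : ℝ) - r))) atTop (𝓝 0) := by
    apply Real.tendsto_exp_atBot.comp
    have h2 : Tendsto (fun n : ℕ => (6 * t + r) + -(n : ℝ)) atTop atBot :=
      tendsto_atBot_add_const_left _ _ (tendsto_neg_atTop_atBot.comp tendsto_natCast_atTop_atTop)
    refine h2.congr (fun n => ?_)
    ring
  have h3 := h1.const_mul (4 * M * t)
  simpa using h3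

theorem semigroup (q : ℝ) (h0 : 0 ≤ q) (h1 : q ≤ 1) (P : ℝ → Kernel Config Config)
    (hm : ∀ t : ℝ, 0 ≤ t → IsMarkovKernel (P t))
    (hP : ∀ t : ℝ, 0 ≤ t → ∀ f : Config → ℝ, IsLocal f → ∀ η, ∫ ξ, f ξ ∂(P t η) = Pinf q t f η)
    (s t : ℝ) (hs : 0 ≤ s) (ht : 0 ≤ t) (f : Config → ℝ) (hf : IsLocal f) (η : Config) :
    Pinf q (s + t) f η = ∫ ξ, Pinf q t f ξ ∂(P s η) := by
  obtain ⟨r, hr⟩ := (local_iff f).1 hf
  obtain ⟨M, hM⟩ := Loc_bd r f hr
  have := hm s hs
  have hpm : IsProbabilityMeasure (P s η) := inferInstance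
  have hBf : FA.Bd f := ⟨M, hM⟩
  have hloc : ∀ n : ℕ, r + 1 ≤ n → Loc (n + 1) (Pbox q n t f) := fun n hn =>
    Pbox_loc q n r (by omega) t f hr
  have hbd : ∀ n : ℕ, FA.Bd (Pbox q n t f) := by
    intro n
    refine ⟨M, fun x => ?_⟩
    rw [(BoxG_P q h0 h1 n t f x).1]
    exact (BoxG q h0 h1 n).P_bound f M hM t ht x
  have htend := semigroup_tend M t r
  have key1 : ∀ n : ℕ, r + 1 ≤ n → |Pinf q s (Pbox q n t f) η - Pinf q (s + t) f η| ≤
      4 * M * t * Real.exp (6 * t - ((n : ℝ) - r)) := by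
    intro n hn
    have hstep : ∀ m : ℕ, r + 1 ≤ m → |Pbox q m s (Pbox q n t f) η - Pbox q m (s + t) f η| ≤
        4 * M * t * Real.exp (6 * t - ((n : ℝ) - r)) + 4 * M * t * Real.exp (6 * t - ((m : ℝ) - r)) := by
      intro m hm'
      have e1 : Pbox q m (s + t) f η = Pbox q m s (Pbox q m t f) η := by
        rw [(BoxG_P q h0 h1 m (s + t) f η).1, (BoxG_P q h0 h1 m s (Pbox q m t f) η).1,
          (BoxG q h0 h1 m).P_semigroup f hBf s t η]
        congr 1
      rw [e1]
      apply semigroup_sub q h0 h1 m s hs _ _ (hbd n) (hbd m)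
      intro ξ
      have a1 := Pinf_box q h0 h1 r f hr M hM n hn t ht ξ
      have a2 := Pinf_box q h0 h1 r f hr M hM m hm' t ht ξ
      rw [abs_le] at a1 a2 ⊢
      constructor <;> linarith [a1.1, a1.2, a2.1, a2.2]
    have l1 : Tendsto (fun m : ℕ => Pbox q m s (Pbox q n t f) η) atTop (𝓝 (Pinf q s (Pbox q n t f) η)) :=
      (Pinf_lim h0 h1 (n + 1) (Pbox q n t f) (hloc n hn) s hs).tendsto_at η
    have l2 : Tendsto (fun m : ℕ => Pbox q m (s + t) f η) atTop (𝓝 (Pinf q (s + t) f η)) :=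
      (Pinf_lim h0 h1 r f hr (s + t) (by linarith)).tendsto_at η
    have l3 := (l1.sub l2).abs
    have l4 := htend.const_add (4 * M * t * Real.exp (6 * t - ((n : ℝ) - r)))
    have l5 := le_of_tendsto_of_tendsto l3 l4 (by
      filter_upwards [eventually_ge_atTop (r + 1)] with m hm'
      exact hstep m hm')
    simpa using l5
  have key2 : ∀ n : ℕ, r + 1 ≤ n →
      |(∫ ξ, Pinf q t f ξ ∂(P s η)) - Pinf q s (Pbox q n t f) η| ≤
      4 * M * t * Real.exp (6 * t - ((n : ℝ) - r)) := by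
    intro n hn
    rw [← hP s hs (Pbox q n t f) ((local_iff _).2 ⟨n + 1, hloc n hn⟩) η]
    have hmeas := Pinf_meas (q := q) h0 h1 r f hr t ht
    have i1 : Integrable (Pinf q t f) (P s η) := by
      apply Integrable.of_bound hmeas.1.aestronglyMeasurable M
      exact Filter.Eventually.of_forall (fun x => by
        rw [Real.norm_eq_abs]; exact hmeas.2 M hM x)
    have i2 : Integrable (Pbox q n t f) (P s η) := loc_int (n + 1) _ (hloc n hn) _
    rw [← integral_sub i1 i2]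
    have b := norm_integral_le_of_norm_le_const (μ := P s η)
      (f := fun ξ => Pinf q t f ξ - Pbox q n t f ξ)
      (C := 4 * M * t * Real.exp (6 * t - ((n : ℝ) - r)))
      (Filter.Eventually.of_forall (fun ξ => by
        rw [Real.norm_eq_abs]
        exact Pinf_box q h0 h1 r f hr M hM n hn t ht ξ))
    simpa using b
  have key3 : |Pinf q (s + t) f η - ∫ ξ, Pinf q t f ξ ∂(P s η)| ≤ 0 := by
    have l6 := htend.add htend
    rw [add_zero] at l6
    apply ge_of_tendsto l6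
    filter_upwards [eventually_ge_atTop (r + 1)] with n hn
    have a1 := key1 n hn
    have a2 := key2 n hn
    rw [abs_le] at a1 a2 ⊢
    constructor <;> linarith [a1.1, a1.2, a2.1, a2.2]
  have := abs_nonpos_iff.1 key3
  linarith

end FAK
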