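import Pool.Agent.Helper769.FAH.HDefs
import Pool.Agent.Helper769.FAG.Main0
import Pool.Agent.Helper769.FAH.P_kernels
import Pool.Agent.Helper769.FAH.P_semigroup
import Pool.Agent.Helper769.FAH.P_ext_local
import Pool.Agent.Helper769.FAH.P_Pinf_gen
import Pool.Agent.Helper769.FAH.P_local_iff
import Pool.Agent.Helper769.FAH.P_loc_meas
import Pool.Agent.Helper769.FAH.P_loc_int
import Pool.Agent.Helper769.FAH.P_gen_eq

set_option autoImplicit false
set_option linter.unusedSectionVars false

open Finset

noncomputable section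

namespace FAK
open MeasureTheory ProbabilityTheory FA.Inf Filter Topology

theorem exists_FA1f (q : ℝ) (h0 : 0 ≤ q) (h1 : q ≤ 1) : ∃ P : ℝ → Kernel Config Config, IsFA1f q P := by
  obtain ⟨P, hm, hP⟩ := kernels q h0 h1
  refine ⟨P, hm, ?_, ?_, ?_⟩
  · refine Kernel.ext fun η => ?_
    rw [Kernel.id_apply]
    have := hm 0 le_rfl
    apply ext_local
    intro f hf
    rw [hP 0 le_rfl f hf η, Pinf_zero, integral_dirac]
  · intro s t hs ht
    refine Kernel.ext fun η => ?_
    have hst := hm (s + t) (add_nonneg hs ht)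
    have hms := hm s hs
    have hmt := hm t ht
    apply ext_local
    intro f hf
    obtain ⟨r, hr⟩ := (local_iff f).1 hf
    rw [hP (s + t) (add_nonneg hs ht) f hf η, semigroup q h0 h1 P hm hP s t hs ht f hf η,
      Kernel.integral_comp (loc_int r f hr _)]
    refine integral_congr_ae (Filter.Eventually.of_forall fun ξ => ?_)
    exact (hP t ht f hf ξ).symm
  · intro f hf ε hε
    obtain ⟨K, hK⟩ := Pinf_gen q h0 h1 f hf
    refine ⟨ε / (|K| + 1), by positivity, fun t ht htδ η => ?_⟩
    rw [hP t ht.le f hf η]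
    have h2 : (Pinf q t f η - f η) / t - gen q f η = (Pinf q t f η - f η - t * gen q f η) / t := by
      field_simp
    rw [h2, abs_div, abs_of_pos ht, div_le_iff₀ ht]
    refine (hK t ht.le η).trans ?_
    have h3 : t * (|K| + 1) < ε := by
      rwa [lt_div_iff₀ (by positivity)] at htδ
    have h4 : K ≤ |K| := le_abs_self K
    have h5 : t ^ 2 * K ≤ t * (t * (|K| + 1)) := by
      have : t ^ 2 * K ≤ t ^ 2 * (|K| + 1) :=
        mul_le_mul_of_nonneg_left (by linarith) (by positivity)
      calc t ^ 2 * K ≤ t ^ 2 * (|K| + 1) := this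
        _ = t * (t * (|K| + 1)) := by ring
    calc t ^ 2 * K ≤ t * (t * (|K| + 1)) := h5
      _ ≤ t * ε := mul_le_mul_of_nonneg_left h3.le ht.le
      _ = ε * t := mul_comm _ _

end FAK
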