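import Pool.Agent.Helper769.FAH.HDefs
import Pool.Agent.Helper769.FAG.Main0

set_option autoImplicit false
set_option linter.unusedSectionVars false

open Finset

noncomputable section

namespace FAK
open MeasureTheory ProbabilityTheory FA.Inf Filter Topology

theorem prodM_eq_aux (q : ℝ) (h0 : 0 < q) (h1 : q < 1) :
    bern q = ProbabilityTheory.bernoulliMeasure false true ⟨q, h0.le, h1.le⟩ := by
  rw [ProbabilityTheory.bernoulliMeasure_def]
  have e1 : ENNReal.ofReal q =
      ((unitInterval.toNNReal (⟨q, h0.le, h1.le⟩ : unitInterval) : NNReal) : ENNReal) := by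
    rw [ENNReal.ofReal]
    congr 1
    ext
    rw [Real.coe_toNNReal _ h0.le]
    rfl
  have e2 : ENNReal.ofReal (1 - q) =
      ((unitInterval.toNNReal (unitInterval.symm (⟨q, h0.le, h1.le⟩ : unitInterval)) : NNReal) :
        ENNReal) := by
    rw [ENNReal.ofReal]
    congr 1
    ext
    rw [Real.coe_toNNReal _ (by linarith)]
    rfl
  unfold bern
  rw [e1, e2]
  rfl

theorem prodM_eq (q : ℝ) (h0 : 0 < q) (h1 : q < 1) : prodM q = piq q h0 h1 := by
  unfold prodM piq
  rw [prodM_eq_aux q h0 h1]

end FAK
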