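import Pool.Agent.Helper769.FAH.HDefs
import Pool.Agent.Helper769.FAG.Main0
import Pool.Agent.Helper769.FAH.P_box_cmp
import Pool.Agent.Helper769.FAH.P_local_iff
import Pool.Agent.Helper769.FAH.P_loc_meas

set_option autoImplicit false
set_option linter.unusedSectionVars false

open Finset

noncomputable section

namespace FAK
open MeasureTheory ProbabilityTheory FA.Inf Filter Topology

theorem uniq (q : ℝ) (h0 : 0 ≤ q) (h1 : q ≤ 1) (P : ℝ → Kernel Config Config) (hP : IsFA1f q P)
    (f : Config → ℝ) (hf : IsLocal f) (t : ℝ) (ht : 0 ≤ t) (η : Config) :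
    ∫ ξ, f ξ ∂(P t η) = Pinf q t f η := by
  obtain ⟨r, hr⟩ := (local_iff f).1 hf
  obtain ⟨M, hM⟩ := Loc_bd r f hr
  have hlim : Tendsto (fun n : ℕ => Pbox q n t f η) atTop (𝓝 (Pinf q t f η)) :=
    (Pinf_lim h0 h1 r f hr t ht).tendsto_at η
  have hexp : Tendsto (fun n : ℕ => t * (16 * M * t * Real.exp (6 * t - (n - r : ℝ)))) atTop (𝓝 0) := by
    have e1 : Tendsto (fun n : ℕ => (6 * t - ((n : ℝ) - r))) atTop atBot := by
      have : Tendsto (fun n : ℕ => ((n : ℝ) - r)) atTop atTop :=
        tendsto_atTop_add_const_right _ _ tendsto_natCast_atTop_atTop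
      have h2 := tendsto_const_nhds (x := (6 * t)) (f := (atTop : Filter ℕ)) |>.add_atBot
        (tendsto_neg_atTop_atBot.comp this)
      simpa [sub_eq_add_neg] using h2
    have e2 := (Real.tendsto_exp_atBot.comp e1).const_mul (16 * M * t)
    have e3 := e2.const_mul t
    simpa using e3
  have hlim2 : Tendsto (fun n : ℕ => Pbox q n t f η) atTop (𝓝 (∫ ξ, f ξ ∂(P t η))) := by
    rw [tendsto_iff_dist_tendsto_zero]
    refine squeeze_zero' (Filter.Eventually.of_forall fun n => dist_nonneg) ?_ hexp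
    filter_upwards [Filter.eventually_ge_atTop (r + 2)] with n hn
    rw [dist_comm, Real.dist_eq]
    exact box_cmp q h0 h1 P hP r f hr M hM n hn t ht η
  exact tendsto_nhds_unique hlim2 hlim

end FAK
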