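import Pool.Agent.Helper769.FAH.HDefs
import Pool.Agent.Helper769.FAG.Main0
import Pool.Agent.Helper769.FAH.P_exists_FA1f
import Pool.Agent.Helper769.FAH.P_uniq
import Pool.Agent.Helper769.FAH.P_local_iff
import Pool.Agent.Helper769.FAH.P_prodM_eq

set_option autoImplicit false
set_option linter.unusedSectionVars false

open Finset

noncomputable section

namespace FAK
open MeasureTheory ProbabilityTheory FA.Inf Filter Topology

theorem mainK (q : ℝ) (h0 : 0 < q) (h1 : q < 1) :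
    (∃ P : ℝ → Kernel Config Config, IsFA1f q P) ∧
    ∀ P : ℝ → Kernel Config Config, IsFA1f q P →
    ∀ ν : Measure Config, IsProbabilityMeasure ν →
      (∃ κ : ℝ, 0 < κ ∧
        (fun l : ℕ => ν.real {η | ∀ x : ℤ, |x| ≤ l → η x = true}) =O[atTop]
          (fun l : ℕ => Real.exp (-κ * l))) →
      ∀ f : Config → ℝ, IsLocal f → ∃ C c : ℝ, 0 < C ∧ 0 < c ∧ ∀ t : ℝ, 0 ≤ t →
        |(∫ η, (∫ ξ, f ξ ∂(P t η)) ∂ν) - ∫ ξ, f ξ ∂(prodM q)| ≤ C * Real.exp (-c * t) := by
  refine ⟨exists_FA1f q h0.le h1.le, ?_⟩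
  intro P hP ν hν hO f hf
  obtain ⟨κ, hκ, hO⟩ := hO
  obtain ⟨r, hr⟩ := (local_iff f).1 hf
  obtain ⟨c, hc⟩ := hO.bound
  obtain ⟨l0, hl0⟩ := Filter.eventually_atTop.1 hc
  have hA : ∀ l : ℕ, ν.real {η | ∀ x : ℤ, -(l : ℤ) ≤ x → x ≤ l → η x = true} ≤
      (|c| + Real.exp (κ * l0)) * Real.exp (-(κ * l)) := by
    intro l
    have hset : {η : Config | ∀ x : ℤ, -(l : ℤ) ≤ x → x ≤ l → η x = true} =
        {η : Config | ∀ x : ℤ, |x| ≤ l → η x = true} := by
      ext η
      constructor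
      · intro h x hx
        rw [abs_le] at hx
        exact h x hx.1 hx.2
      · intro h x h2 h3
        exact h x (abs_le.2 ⟨h2, h3⟩)
    rw [hset]
    have hpos : 0 < Real.exp (-(κ * l)) := Real.exp_pos _
    by_cases hl : l0 ≤ l
    · have h2 := hl0 l hl
      rw [Real.norm_of_nonneg measureReal_nonneg, Real.norm_of_nonneg (Real.exp_pos _).le] at h2
      have e1 : -κ * (l : ℝ) = -(κ * l) := by ring
      rw [e1] at h2
      have h3 : c * Real.exp (-(κ * l)) ≤ |c| * Real.exp (-(κ * l)) :=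
        mul_le_mul_of_nonneg_right (le_abs_self c) hpos.le
      have h4 : 0 ≤ Real.exp (κ * l0) * Real.exp (-(κ * l)) := by positivity
      rw [add_mul]
      linarith
    · have h2 : ν.real {η : Config | ∀ x : ℤ, |x| ≤ l → η x = true} ≤ 1 := measureReal_le_one
      have h3 : (1 : ℝ) ≤ Real.exp (κ * l0) * Real.exp (-(κ * l)) := by
        rw [← Real.exp_add]
        apply Real.one_le_exp
        have h5 : (l : ℝ) ≤ l0 := by
          have : l ≤ l0 := by omega
          exact_mod_cast this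
        nlinarith
      have h4 : 0 ≤ |c| * Real.exp (-(κ * l)) := by positivity
      rw [add_mul]
      linarith
  obtain ⟨C, c', hC, hc', hmain⟩ := main0 q h0 h1 ν κ _ hκ hA r f hr
  refine ⟨C, c', hC, hc', fun t ht => ?_⟩
  have h2 := hmain t ht
  have e1 : ∀ η, ∫ ξ, f ξ ∂(P t η) = Pinf q t f η := fun η =>
    uniq q h0.le h1.le P hP f hf t ht η
  simp only [e1]
  rw [prodM_eq q h0 h1]
  have e2 : -c' * t = -(c' * t) := by ring
  rw [e2]
  exact h2

end FAK
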